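import Mathlib

/-!
# Absolutely continuous functions: small additions
-/

set_option autoImplicit false

open MeasureTheory Filter Topology Set
open scoped ENNReal

namespace Q64.AC

/-- Composition of an absolutely continuous function with a Lipschitz function. -/
lemma comp {X Y : Type*} [PseudoMetricSpace X] [PseudoMetricSpace Y] {f : ℝ → X} {g : X → Y}
    {a b : ℝ} {S : Set X} {K : NNReal}
    (hg : LipschitzOnWith K g S) (hf : AbsolutelyContinuousOnInterval f a b)
    (hS : ∀ t ∈ uIcc a b, f t ∈ S) : AbsolutelyContinuousOnInterval (fun t => g (f t)) a b := by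
  have h := Tendsto.const_mul (K : ℝ) hf
  rw [mul_zero] at h
  refine squeeze_zero' (Eventually.of_forall fun _ => Finset.sum_nonneg fun _ _ => dist_nonneg)
    ?_ h
  refine Filter.mem_inf_of_right ?_
  intro E hE
  simp only [Set.mem_ofPred_eq]
  rw [Finset.mul_sum]
  refine Finset.sum_le_sum fun i hi => ?_
  have := hE.1 i hi
  exact hg.dist_le_mul _ (hS _ this.1) _ (hS _ this.2)

/-- Composition with a `C¹` function. -/
lemma comp_contDiff {f : ℝ → ℝ} {g : ℝ → ℝ} {a b : ℝ}
    (hg : ContDiff ℝ 1 g) (hf : AbsolutelyContinuousOnInterval f a b) :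
    AbsolutelyContinuousOnInterval (fun t => g (f t)) a b := by
  obtain ⟨C, hC⟩ := hf.exists_bound
  obtain ⟨K, hK⟩ : ∃ K, LipschitzOnWith K g (Icc (-C) C) :=
    hg.contDiffOn.exists_lipschitzOnWith (by norm_num) (convex_Icc _ _) isCompact_Icc
  refine comp hK hf fun t ht => ?_
  have := hC t ht
  rw [Real.norm_eq_abs, abs_le] at this
  exact this

/-- An integral bound for absolutely continuous functions. -/
lemma sub_le {W u : ℝ → ℝ} {a b : ℝ} (hab : a ≤ b) (hW : AbsolutelyContinuousOnInterval W a b)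
    (hu : IntervalIntegrable u volume a b) {w : ℝ → ℝ}
    (hd : ∀ᵐ t : ℝ, t ∈ Ioo a b → HasDerivAt W (w t) t)
    (hle : ∀ᵐ t : ℝ, t ∈ Ioo a b → w t ≤ u t) : W b - W a ≤ ∫ t in a..b, u t := by
  rw [← hW.integral_deriv_eq_sub]
  refine intervalIntegral.integral_mono_ae_restrict hab hW.intervalIntegrable_deriv hu ?_
  rw [← restrict_Ioo_eq_restrict_Icc]
  filter_upwards [ae_restrict_of_ae hd, ae_restrict_of_ae hle,
    ae_restrict_mem measurableSet_Ioo] with t h1 h2 h3
  rw [(h1 h3).deriv]
  exact h2 h3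

end Q64.AC
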