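import Mathlib

/-!
# Mollification: derivatives and `L¹` convergence
-/

set_option autoImplicit false

open Filter Topology Set MeasureTheory Metric
open scoped ContDiff Convolution

namespace Q64

variable {G : Type*} [NormedAddCommGroup G] [InnerProductSpace ℝ G] [FiniteDimensional ℝ G]
  [MeasurableSpace G] [BorelSpace G]

/-- The mollification `∫ v(t) η(x - t) dt`. -/
noncomputable def mol (η v : G → ℝ) (x : G) : ℝ := ∫ t, v t * η (x - t)

lemma mol_eq_conv (η v : G → ℝ) :
    mol η v = (v ⋆[ContinuousLinearMap.mul ℝ ℝ, volume] η) := by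
  funext x
  rw [mol, convolution_def]
  rfl

lemma mol_eq_bump (η : ContDiffBump (0 : G)) (v : G → ℝ) (x : G) :
    mol (η.normed volume) v x =
      ((η.normed volume) ⋆[ContinuousLinearMap.lsmul ℝ ℝ, volume] v) x := by
  rw [mol, convolution_lsmul_swap]
  refine integral_congr_ae (Eventually.of_forall fun t => ?_)
  simp only [smul_eq_mul]
  ring

section Smooth

variable {η v : G → ℝ}

lemma contDiff_mol {n : ℕ∞} (hη : HasCompactSupport η) (hη' : ContDiff ℝ n η)
    (hv : LocallyIntegrable v) : ContDiff ℝ n (mol η v) := by
  rw [mol_eq_conv]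
  exact hη.contDiff_convolution_right _ hv hη'

lemma fderiv_mol (hη : HasCompactSupport η) (hη' : ContDiff ℝ 1 η)
    (hv : LocallyIntegrable v) (x h : G) :
    fderiv ℝ (mol η v) x h = mol (fun y => fderiv ℝ η y h) v x := by
  have h1 := hη.hasFDerivAt_convolution_right (ContinuousLinearMap.mul ℝ ℝ) hv hη' x
  rw [mol_eq_conv, h1.fderiv, convolution_precompR_apply _ hv (hη.fderiv ℝ)
    (hη'.continuous_fderiv one_ne_zero), mol_eq_conv]

lemma integrable_mol_integrand {η v : G → ℝ} (hη : Continuous η) (hη2 : HasCompactSupport η)
    (hv : Integrable v) (x : G) : Integrable fun t => v t * η (x - t) := by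
  obtain ⟨C, hC⟩ := hη2.exists_bound_of_continuous hη
  refine hv.mul_bdd (c := C) ?_ (Eventually.of_forall fun t => hC _)
  exact (hη.comp (continuous_const.sub continuous_id)).aestronglyMeasurable

end Smooth

lemma mol_sub {η v w : G → ℝ} (hη : Continuous η) (hη2 : HasCompactSupport η)
    (hv : Integrable v) (hw : Integrable w) (x : G) :
    mol η (fun t => v t - w t) x = mol η v x - mol η w x := by
  unfold mol
  rw [← integral_sub (integrable_mol_integrand hη hη2 hv x)
    (integrable_mol_integrand hη hη2 hw x)]
  refine integral_congr_ae (Eventually.of_forall fun t => ?_)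
  simp only
  ring

lemma integrable_mol {η v : G → ℝ} (hη : Integrable η) (hv : Integrable v) :
    Integrable (mol η v) := by
  rw [mol_eq_conv]
  exact hv.integrable_convolution _ hη

lemma integral_mol {η v : G → ℝ} (hη : Integrable η) (hv : Integrable v) :
    ∫ x, mol η v x = (∫ x, v x) * ∫ x, η x := by
  rw [mol_eq_conv, integral_convolution _ hv hη]
  rfl

section L1

variable {η : ℕ → ContDiffBump (0 : G)} {K : ℝ}

lemma ae_tendsto_mol (h0 : Tendsto (fun j => (η j).rOut) atTop (𝓝 0))
    (hK : ∀ᶠ j in atTop, (η j).rOut ≤ K * (η j).rIn) {v : G → ℝ} (hv : LocallyIntegrable v) :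
    ∀ᵐ x, Tendsto (fun j => mol ((η j).normed volume) v x) atTop (𝓝 (v x)) := by
  filter_upwards [ContDiffBump.ae_convolution_tendsto_right_of_locallyIntegrable h0 hK hv]
    with x hx
  simpa only [mol_eq_bump] using hx

lemma tendsto_L1_nonneg (h0 : Tendsto (fun j => (η j).rOut) atTop (𝓝 0))
    (hK : ∀ᶠ j in atTop, (η j).rOut ≤ K * (η j).rIn) {v : G → ℝ} (hv : Integrable v)
    (hv0 : ∀ x, 0 ≤ v x) :
    Tendsto (fun j => ∫ x, |mol ((η j).normed volume) v x - v x|) atTop (𝓝 0) := by
  have hηi : ∀ j, Integrable ((η j).normed (volume : Measure G)) := fun j =>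
    (η j).integrable_normed
  have hmi : ∀ j, Integrable (mol ((η j).normed volume) v) := fun j => integrable_mol (hηi j) hv
  have hmint : ∀ j, ∫ x, mol ((η j).normed volume) v x = ∫ x, v x := by
    intro j
    rw [integral_mol (hηi j) hv, (η j).integral_normed, mul_one]
  have hm0 : ∀ j x, 0 ≤ mol ((η j).normed volume) v x := by
    intro j x
    exact integral_nonneg fun t => mul_nonneg (hv0 t) ((η j).nonneg_normed _)
  have h1 : ∀ j, ∫ x, |mol ((η j).normed volume) v x - v x| =
      2 * ∫ x, max (v x - mol ((η j).normed volume) v x) 0 := by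
    intro j
    have h2 : ∀ x, |mol ((η j).normed volume) v x - v x| =
        (mol ((η j).normed volume) v x - v x) +
          2 * max (v x - mol ((η j).normed volume) v x) 0 := by
      intro x
      rcases le_total (v x) (mol ((η j).normed volume) v x) with h | h
      · rw [abs_of_nonneg (by linarith), max_eq_right (by linarith)]; ring
      · rw [abs_of_nonpos (by linarith), max_eq_left (by linarith)]; ring
    have h3 : Integrable fun x => max (v x - mol ((η j).normed volume) v x) 0 :=
      (hv.sub (hmi j)).pos_part
    simp_rw [h2]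
    have h5 : Integrable fun x => mol ((η j).normed volume) v x - v x := (hmi j).sub hv
    rw [integral_add h5 (h3.const_mul 2), integral_sub (hmi j) hv, hmint,
      integral_const_mul]
    ring
  simp_rw [h1]
  have h4 : Tendsto (fun j => ∫ x, max (v x - mol ((η j).normed volume) v x) 0) atTop
      (𝓝 (∫ _ : G, (0 : ℝ))) := by
    refine tendsto_integral_of_dominated_convergence v (fun j => ?_) hv (fun j => ?_) ?_
    · exact ((hv.sub (hmi j)).pos_part).aestronglyMeasurable
    · refine Eventually.of_forall fun x => ?_
      rw [Real.norm_eq_abs, abs_of_nonneg (le_max_right _ _)]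
      exact max_le (by linarith [hm0 j x]) (hv0 x)
    · filter_upwards [ae_tendsto_mol h0 hK hv.locallyIntegrable] with x hx
      have := (hx.const_sub (v x)).max (tendsto_const_nhds (x := (0 : ℝ)))
      simpa using this
  simpa using h4.const_mul 2

lemma tendsto_L1 (h0 : Tendsto (fun j => (η j).rOut) atTop (𝓝 0))
    (hK : ∀ᶠ j in atTop, (η j).rOut ≤ K * (η j).rIn) {v : G → ℝ} (hv : Integrable v) :
    Tendsto (fun j => ∫ x, |mol ((η j).normed volume) v x - v x|) atTop (𝓝 0) := by
  have hp : Integrable fun x => max (v x) 0 := hv.pos_part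
  have hn : Integrable fun x => max (-v x) 0 := hv.neg_part
  have h1 := tendsto_L1_nonneg h0 hK hp fun x => le_max_right _ _
  have h2 := tendsto_L1_nonneg h0 hK hn fun x => le_max_right _ _
  have h3 := h1.add h2
  rw [add_zero] at h3
  have hηi : ∀ j, Integrable ((η j).normed (volume : Measure G)) := fun j =>
    (η j).integrable_normed
  refine squeeze_zero (fun j => integral_nonneg fun x => abs_nonneg _) (fun j => ?_) h3
  have a1 : Integrable fun x => |mol ((η j).normed volume) (fun x => max (v x) 0) x -
      max (v x) 0| := ((integrable_mol (hηi j) hp).sub hp).abs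
  have a2 : Integrable fun x => |mol ((η j).normed volume) (fun x => max (-v x) 0) x -
      max (-v x) 0| := ((integrable_mol (hηi j) hn).sub hn).abs
  rw [← integral_add a1 a2]
  refine integral_mono ((integrable_mol (hηi j) hv).sub hv).abs (a1.add a2) fun x => ?_
  have e : v = fun t => max (v t) 0 - max (-v t) 0 := by
    funext t
    rcases le_total 0 (v t) with h | h
    · rw [max_eq_left h, max_eq_right (by linarith)]; ring
    · rw [max_eq_right h, max_eq_left (by linarith)]; ring
  have e2 : mol ((η j).normed volume) v x = mol ((η j).normed volume) (fun t => max (v t) 0) x -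
      mol ((η j).normed volume) (fun t => max (-v t) 0) x := by
    conv_lhs => rw [e]
    exact mol_sub ((η j).continuous_normed) ((η j).hasCompactSupport_normed) hp hn x
  have e3 : v x = max (v x) 0 - max (-v x) 0 := congrFun e x
  simp only
  calc |mol ((η j).normed volume) v x - v x| =
      |(mol ((η j).normed volume) (fun t => max (v t) 0) x - max (v x) 0) -
        (mol ((η j).normed volume) (fun t => max (-v t) 0) x - max (-v x) 0)| := by
        rw [e2]; congr 1; linarith
    _ ≤ _ := abs_sub _ _

end L1

end Q64
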